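import Pool.Agent.SCT.StmtsC

/-!
# Squad SCT, row COP: coprime polynomials have no common zero of codimension one
-/

set_option autoImplicit false

namespace Pool.Agent.SCT.H22

open MvPolynomial nonZeroDivisors

/-- relatively prime polynomials over a factorial domain are coprime over the fraction field -/
theorem cop_map {A K : Type} [CommRing A] [IsDomain A] [UniqueFactorizationMonoid A] [Field K]
    [Algebra A K] [IsFractionRing A K] {g h : Polynomial A} (hr : IsRelPrime g h) :
    IsCoprime (g.map (algebraMap A K)) (h.map (algebraMap A K)) := by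
  classical
  let _ : NormalizedGCDMonoid A := Nonempty.some inferInstance
  have hinj : Function.Injective (algebraMap A K) := IsFractionRing.injective A K
  rw [← EuclideanDomain.gcd_isUnit_iff]
  by_contra hu
  set d := EuclideanDomain.gcd (g.map (algebraMap A K)) (h.map (algebraMap A K)) with hd
  have hd0 : d ≠ 0 := by
    intro h0
    have h1 := EuclideanDomain.gcd_eq_zero_iff.1 (hd.symm.trans h0)
    have hg : g = 0 := by
      apply Polynomial.map_injective _ hinj
      rw [h1.1, Polynomial.map_zero]
    have hh : h = 0 := by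
      apply Polynomial.map_injective _ hinj
      rw [h1.2, Polynomial.map_zero]
    rw [hg, hh] at hr
    exact not_isUnit_zero (hr (dvd_zero 0) (dvd_zero 0))
  obtain ⟨c, c0, hc⟩ := IsLocalization.integerNormalization_spec A⁰ d
  set q := IsLocalization.integerNormalization A⁰ d with hq
  have hp : ¬ IsUnit q.primPart := fun hup =>
    hu (Polynomial.isUnit_or_eq_zero_of_isUnit_integerNormalization_primPart hd0 hup)
  have hc1 : algebraMap A K c ≠ 0 := by
    intro h0
    exact nonZeroDivisors.ne_zero c0 (hinj (h0.trans (map_zero _).symm))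
  have h1 : q.primPart.map (algebraMap A K) ∣ d := by
    have h2 : q.primPart.map (algebraMap A K) ∣ Polynomial.C (algebraMap A K c) * d := by
      refine ⟨Polynomial.C (algebraMap A K q.content), ?_⟩
      have h3 : q.map (algebraMap A K) = Polynomial.C (algebraMap A K c) * d := by
        rw [hc, Algebra.smul_def]
        rfl
      rw [← h3]
      conv_lhs => rw [q.eq_C_content_mul_primPart]
      rw [Polynomial.map_mul, Polynomial.map_C, mul_comm]
    have h4 : IsUnit (Polynomial.C (algebraMap A K c)) :=
      Polynomial.isUnit_C.2 (isUnit_iff_ne_zero.2 hc1)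
    exact (h4.dvd_mul_left).1 h2
  have h5 : q.primPart ∣ g := q.isPrimitive_primPart.dvd_of_fraction_map_dvd_fraction_map
    (h1.trans (EuclideanDomain.gcd_dvd_left _ _))
  have h6 : q.primPart ∣ h := q.isPrimitive_primPart.dvd_of_fraction_map_dvd_fraction_map
    (h1.trans (EuclideanDomain.gcd_dvd_right _ _))
  exact hp (hr h5 h6)

/-- relatively prime polynomials over a factorial domain have no common zero over a domain -/
theorem cop_eval {A Ω : Type} [CommRing A] [IsDomain A] [UniqueFactorizationMonoid A] [Field Ω]
    (ψ : A →+* Ω) (hψ : Function.Injective ψ) {g h : Polynomial A} (hr : IsRelPrime g h) (t : Ω)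
    (hg : Polynomial.eval₂ ψ t g = 0) (hh : Polynomial.eval₂ ψ t h = 0) : False := by
  let φ : FractionRing A →+* Ω := IsFractionRing.lift hψ
  have hφ : ∀ p : Polynomial A, Polynomial.eval₂ φ t (p.map (algebraMap A (FractionRing A))) =
      Polynomial.eval₂ ψ t p := by
    intro p
    rw [Polynomial.eval₂_map]
    congr 1
    ext a
    exact IsFractionRing.lift_algebraMap hψ a
  obtain ⟨a, b, hab⟩ := cop_map (K := FractionRing A) hr
  have h1 := congrArg (Polynomial.eval₂ φ t) hab
  rw [Polynomial.eval₂_add, Polynomial.eval₂_mul, Polynomial.eval₂_mul, hφ, hφ, hg, hh, mul_zero,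
    mul_zero, add_zero, Polynomial.eval₂_one] at h1
  exact zero_ne_one h1

open scoped IntermediateField.algebraAdjoinAdjoin Cardinal

/-- among `n + 1` elements which generate a field of transcendence degree at least `n` there are `n`
independent ones -/
theorem exists_indep {k Ω : Type} [Field k] [Field Ω] [Algebra k Ω] {n : ℕ} (y : Fin (n + 1) → Ω)
    (ht : (n : Cardinal) ≤ Algebra.trdeg k (IntermediateField.adjoin k (Set.range y))) :
    ∃ j : Fin (n + 1), AlgebraicIndependent k (fun i : Fin n => y (j.succAbove i)) := by
  classical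
  let z : Fin (n + 1) → Algebra.adjoin k (Set.range y) :=
    fun i => ⟨y i, Algebra.subset_adjoin ⟨i, rfl⟩⟩
  have htop : Algebra.adjoin k (Set.range z) = ⊤ := by
    apply Subalgebra.map_injective (f := (Algebra.adjoin k (Set.range y)).val)
      Subtype.val_injective
    rw [← Algebra.adjoin_image, ← Set.range_comp, Algebra.map_top, Subalgebra.range_val]
    rfl
  have halg : Algebra.IsAlgebraic (Algebra.adjoin k (Set.range z))
      (Algebra.adjoin k (Set.range y)) := by
    refine ⟨fun a => ?_⟩
    have ha : a ∈ Algebra.adjoin k (Set.range z) := by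
      rw [htop]; exact Algebra.mem_top
    exact isAlgebraic_algebraMap (⟨a, ha⟩ : Algebra.adjoin k (Set.range z))
  obtain ⟨s, hs, hb⟩ := exists_isTranscendenceBasis_subset (R := k) (Set.range z)
  have hcard : (n : Cardinal) ≤ #s := by
    rw [hb.cardinalMk_eq_trdeg]
    refine ht.trans (le_of_eq ?_)
    rw [← trdeg_add_eq k (Algebra.adjoin k (Set.range y)),
      trdeg_eq_zero (R := Algebra.adjoin k (Set.range y)), add_zero]
  have hch : ∀ a : s, ∃ i, z i = a := fun a => hs a.2
  choose f hf using hch
  have hfi : Function.Injective f := by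
    intro a b hab
    apply Subtype.ext
    rw [← hf a, ← hf b, hab]
  have hfin : Finite s := Finite.of_injective f hfi
  have hcard2 : n ≤ Nat.card s := by
    have h1 : (Nat.card s : Cardinal) = #s := Nat.cast_card
    rw [← h1] at hcard
    exact_mod_cast hcard
  obtain ⟨j, hj⟩ : ∃ j : Fin (n + 1), ∀ i, i ≠ j → i ∈ Set.range f := by
    by_contra hcon
    push Not at hcon
    obtain ⟨i1, -, h1⟩ := hcon 0
    obtain ⟨i2, h12, h2⟩ := hcon i1
    have h3 : Nat.card s ≤ ((Finset.univ.erase i1).erase i2 : Finset (Fin (n + 1))).card := by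
      have h4 : ∀ a : s, f a ∈ ((Finset.univ.erase i1).erase i2 : Finset (Fin (n + 1))) := by
        intro a
        rw [Finset.mem_erase, Finset.mem_erase]
        exact ⟨fun h => h2 ⟨a, h⟩, fun h => h1 ⟨a, h⟩, Finset.mem_univ _⟩
      have h5 := Nat.card_le_card_of_injective
        (fun a : s => (⟨f a, h4 a⟩ : ((Finset.univ.erase i1).erase i2 : Finset (Fin (n + 1)))))
        (fun a b hab => hfi (congrArg Subtype.val hab))
      rwa [Nat.card_eq_fintype_card (α := ((Finset.univ.erase i1).erase i2 : Finset (Fin (n + 1)))),
        Fintype.card_coe] at h5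
    rw [Finset.card_erase_of_mem (Finset.mem_erase.2 ⟨h12, Finset.mem_univ _⟩),
      Finset.card_erase_of_mem (Finset.mem_univ _), Finset.card_univ, Fintype.card_fin] at h3
    have hn : 2 ≤ n + 1 := by
      have h6 : ({i1, i2} : Finset (Fin (n + 1))).card ≤ n + 1 := by
        have := Finset.card_le_univ ({i1, i2} : Finset (Fin (n + 1)))
        rwa [Fintype.card_fin] at this
      rwa [Finset.card_pair h12.symm] at h6
    omega
  have hj2 : ∀ l : Fin n, ∃ a : s, (a : Algebra.adjoin k (Set.range y)) = z (j.succAbove l) := by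
    intro l
    obtain ⟨a, ha⟩ := hj (j.succAbove l) (Fin.succAbove_ne j l)
    exact ⟨a, by rw [← ha, hf a]⟩
  choose g hg using hj2
  have hfg : ∀ l, f (g l) = j.succAbove l := by
    intro l
    obtain ⟨a, ha⟩ := hj (j.succAbove l) (Fin.succAbove_ne j l)
    have : g l = a := by
      apply Subtype.ext
      rw [hg l, ← ha, hf a]
    rw [this, ha]
  have hgi : Function.Injective g := by
    intro l l' hll
    apply Fin.succAbove_right_injective (p := j)
    rw [← hfg l, ← hfg l', hll]
  refine ⟨j, ?_⟩
  have h7 := (hb.1.comp g hgi).map' (f := (Algebra.adjoin k (Set.range y)).val)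
    Subtype.val_injective
  have h8 : (fun i : Fin n => y (j.succAbove i)) =
      (Algebra.adjoin k (Set.range y)).val ∘ ((fun a : s => (a : Algebra.adjoin k (Set.range y))) ∘ g) := by
    funext l
    simp only [Function.comp_apply]
    rw [hg l]
    rfl
  rw [h8]
  exact h7

theorem cop : CopStmt := by
  intro k Ω _ _ _ n g h y hr hg hh ht
  obtain ⟨j, hj⟩ := exists_indep y ht
  let e : MvPolynomial (Fin (n + 1)) k ≃ₐ[k] Polynomial (MvPolynomial (Fin n) k) :=
    (renameEquiv k (finSuccEquiv' j)).trans (optionEquivLeft k (Fin n))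
  have he : ∀ p, Polynomial.eval₂ ((aeval (fun i : Fin n => y (j.succAbove i)) :
      MvPolynomial (Fin n) k →ₐ[k] Ω) : MvPolynomial (Fin n) k →+* Ω) (y j) (e p) = aeval y p := by
    intro p
    induction p using MvPolynomial.induction_on with
    | C a => simp [e]
    | add p q hp hq => rw [map_add, Polynomial.eval₂_add, hp, hq, map_add]
    | mul_X p i hp =>
      rw [map_mul, Polynomial.eval₂_mul, hp, map_mul, aeval_X]
      congr 1
      rcases Fin.eq_self_or_eq_succAbove j i with rfl | ⟨l, rfl⟩
      · simp [e]
      · simp [e]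
  have hr' : IsRelPrime (e g) (e h) := by
    intro d h1 h2
    have h3 : IsUnit (e.symm d) := by
      apply hr
      · rw [← e.symm_apply_apply g]; exact map_dvd e.symm h1
      · rw [← e.symm_apply_apply h]; exact map_dvd e.symm h2
    have h4 := h3.map e
    rwa [e.apply_symm_apply] at h4
  refine cop_eval _ ?_ hr' (y j) ((he g).trans hg) ((he h).trans hh)
  exact hj

end Pool.Agent.SCT.H22
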