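import Pool.Agent.SCT.StmtsB

/-!
# Squad SCT, row TAY: first order Taylor formula and chain rule
-/

set_option autoImplicit false

namespace Pool.Agent.SCT.H22

open MvPolynomial

variable {k Ω : Type} [Field k] [Field Ω] [Algebra k Ω] {ι : Type} [Fintype ι]

theorem dd_C (a : k) (y v : ι → Ω) : dd (C a) y v = 0 := by
  simp [dd]

theorem dd_add_left (p q : MvPolynomial ι k) (y v : ι → Ω) :
    dd (p + q) y v = dd p y v + dd q y v := by
  simp only [dd, map_add, mul_add, Finset.sum_add_distrib]

theorem dd_mul_X (p : MvPolynomial ι k) (i : ι) (y v : ι → Ω) :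
    dd (p * X i) y v = dd p y v * y i + aeval y p * v i := by
  classical
  unfold dd
  have h1 : ∀ j, v j * aeval y (pderiv j (p * X i)) =
      v j * aeval y (pderiv j p) * y i + (if j = i then aeval y p * v i else 0) := by
    intro j
    rw [Derivation.leibniz, smul_eq_mul, smul_eq_mul, map_add, map_mul, map_mul, aeval_X,
      pderiv_X, Pi.single_apply]
    by_cases hij : j = i
    · subst hij
      simp
      ring
    · rw [if_neg hij, if_neg (fun h => hij h.symm)]
      simp
      ring
  rw [Finset.sum_congr rfl fun j _ => h1 j, Finset.sum_add_distrib, ← Finset.sum_mul,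
    Finset.sum_ite_eq' Finset.univ i, if_pos (Finset.mem_univ i)]

theorem tay : TayStmt := by
  intro k Ω _ _ _ ι _ y v g
  refine ⟨?_, ?_⟩
  · induction g using MvPolynomial.induction_on with
    | C a =>
      rw [dd_C, TrivSqZeroExt.inr_zero, add_zero, algHom_C, algHom_C]
      rfl
    | add p q hp hq =>
      rw [map_add, hp, hq, map_add, dd_add_left, TrivSqZeroExt.inl_add, TrivSqZeroExt.inr_add]
      abel
    | mul_X p i hp =>
      rw [map_mul, hp, aeval_X, map_mul, aeval_X, dd_mul_X]
      apply TrivSqZeroExt.ext
      · simp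
      · simp
        ring
  · intro D
    induction g using MvPolynomial.induction_on with
    | C a =>
      rw [dd_C, algHom_C, Derivation.map_algebraMap]
    | add p q hp hq =>
      rw [map_add, map_add, hp, hq, dd_add_left]
    | mul_X p i hp =>
      rw [map_mul, aeval_X, Derivation.leibniz, hp, dd_mul_X, smul_eq_mul, smul_eq_mul]
      ring

end Pool.Agent.SCT.H22
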